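import Pool.Agent.H598R2.Count

set_option autoImplicit false

/-!
Comparison of the rigid components of a set of pairs and of its contraction, in a set of pairs
which is sparse for the three-dimensional count: set-up and the estimate for one body.
-/

namespace Pool.Agent.X212.Tight

open Finset Pool.Agent.H598R2.Cnt

variable {V : Type*} [DecidableEq V]

structure Ctx (E F I2 : Finset (Finset V)) (x y : V) (φ ψ : Finset V → Finset V) : Prop where
  hxy : x ≠ y
  hP : Pairs E
  hE : ∀ X : Finset V, 3 ≤ X.card → ins E X + 6 ≤ 3 * X.card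
  he : {x, y} ∈ E
  hFE : F ⊆ E
  heF : {x, y} ∉ F
  sp2 : Sp I2
  P2 : Pairs I2
  tψ : ∀ f ∈ F, Tight I2 (ψ f)
  ψ1 : ∀ f ∈ F, f ⊆ insert y (ψ f)
  ψ2 : ∀ f ∈ F, y ∈ f → x ∈ ψ f
  ψ3 : ∀ f ∈ F, ∀ g ∈ F, 2 ≤ (ψ f ∩ ψ g).card → ψ f = ψ g
  ψy : ∀ f ∈ F, y ∉ ψ f
  φ1 : ∀ f ∈ insert {x, y} F, f ⊆ φ f
  φ2 : ∀ f ∈ insert {x, y} F, ∀ g ∈ insert {x, y} F, g ⊆ φ f → φ g = φ f
  φ3 : ∀ f ∈ F, x ∉ ψ f → ψ f ⊆ φ f

def EE (F : Finset (Finset V)) (φ ψ : Finset V → Finset V) (X Y : Finset V) :
    Finset (Finset V) := F.filter (fun f => φ f = X ∧ ψ f = Y)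

open Classical in
noncomputable def cc (F : Finset (Finset V)) (x y : V) (φ ψ : Finset V → Finset V)
    (X Y : Finset V) : ℤ :=
  if x ∈ Y then
    (if X = φ {x, y} then
      (if (EE F φ ψ X Y).Nonempty then 2 * (((EE F φ ψ X Y).card : ℤ) + 1) else 0)
     else 2 * ((EE F φ ψ X Y).card : ℤ) + (if ∃ f ∈ EE F φ ψ X Y, x ∈ f ∨ y ∈ f then 1 else 0))
  else (if 3 ≤ Y.card ∧ (EE F φ ψ X Y).Nonempty then 2 * ((EE F φ ψ X Y).card : ℤ) - 6 else 0)

variable {E F I2 : Finset (Finset V)} {x y : V} {φ ψ : Finset V → Finset V}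

lemma mem_EE {X Y f : Finset V} : f ∈ EE F φ ψ X Y ↔ f ∈ F ∧ φ f = X ∧ ψ f = Y := by
  simp [EE]

lemma cnt {S : Finset (Finset V)} {Z : Finset V} (hS : S ⊆ E) (hZ : ∀ f ∈ S, f ⊆ Z) :
    S.card ≤ ins E Z := card_le_card (fun f hf => mem_filter.2 ⟨hS hf, hZ f hf⟩)

namespace Ctx

variable (c : Ctx E F I2 x y φ ψ)
include c

lemma big {S : Finset (Finset V)} {Z : Finset V} (hS : S ⊆ E) (hZ : ∀ f ∈ S, f ⊆ Z)
    (h3 : 3 ≤ Z.card) : S.card + 6 ≤ 3 * Z.card := by
  have h1 := cnt hS hZ
  have h2 := c.hE Z h3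
  omega

lemma small {S : Finset (Finset V)} {Z : Finset V} (hS : S ⊆ E) (hZ : ∀ f ∈ S, f ⊆ Z)
    (h2 : Z.card ≤ 2) : S.card ≤ 1 := by
  rw [card_le_one]
  intro f hf g hg
  have h3 : f = Z := eq_of_subset_of_card_le (hZ f hf) (by rw [c.hP f (hS hf)]; exact h2)
  have h4 : g = Z := eq_of_subset_of_card_le (hZ g hg) (by rw [c.hP g (hS hg)]; exact h2)
  rw [h3, h4]

lemma empty {S : Finset (Finset V)} {Z : Finset V} (hS : S ⊆ E) (hZ : ∀ f ∈ S, f ⊆ Z)
    (h2 : Z.card ≤ 1) : S = ∅ := by
  rw [eq_empty_iff_forall_notMem]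
  intro f hf
  have h3 := card_le_card (hZ f hf)
  rw [c.hP f (hS hf)] at h3
  omega

/-- the estimate for one body of the contraction -/
lemma II {Y : Finset V} (hY : Y ∈ F.image ψ) :
    3 * (2 * ((F.filter (fun f => ψ f = Y)).card : ℤ) - 4 * Y.card + 6) ≤
      ∑ X ∈ (insert {x, y} F).image φ, cc F x y φ ψ X Y := by
  classical
  set H := F.filter (fun f => ψ f = Y) with hH
  set 𝒱 := (insert {x, y} F).image φ with h𝒱
  have hHF : H ⊆ F := filter_subset _ _
  have hHE : H ⊆ E := hHF.trans c.hFE
  have hEEc : ∀ X, (EE F φ ψ X Y) = H.filter (fun f => φ f = X) := by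
    intro X; ext f; simp [EE, hH]; tauto
  have hsum : (H.card : ℤ) = ∑ X ∈ 𝒱, ((EE F φ ψ X Y).card : ℤ) := by
    rw [card_eq_sum_card_fiberwise (f := φ) (t := 𝒱) (fun f hf => by
      simp only [h𝒱, coe_image]
      exact ⟨f, by simp [hHF hf], rfl⟩)]
    push_cast
    exact sum_congr rfl fun X _ => by rw [hEEc X]
  have hYc : 2 ≤ Y.card := by
    obtain ⟨f, hf, rfl⟩ := mem_image.1 hY
    exact (c.tψ f hf).1
  have hYy : y ∉ Y := by
    obtain ⟨f, hf, rfl⟩ := mem_image.1 hY
    exact c.ψy f hf
  by_cases hx : x ∈ Y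
  · have hsub : ∀ f ∈ H, f ⊆ insert y Y := by
      intro f hf
      have := mem_filter.1 hf
      rw [← this.2]; exact c.ψ1 f this.1
    have hge : ∀ X, 2 * ((EE F φ ψ X Y).card : ℤ) ≤ cc F x y φ ψ X Y := by
      intro X
      unfold cc
      rw [if_pos hx]
      split_ifs with h1 h2 h3
      · linarith
      · rw [not_nonempty_iff_eq_empty.1 h2]; simp
      · linarith
      · linarith
    by_cases hfull : (∃ f ∈ H, x ∈ f) ∧ (∃ f ∈ H, y ∈ f)
    · obtain ⟨⟨f, hf, hxf⟩, f', hf', hyf'⟩ := hfull
      have hb : H.card + 1 + 6 ≤ 3 * (Y.card + 1) := by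
        have h1 := c.big (S := insert {x, y} H) (Z := insert y Y)
          (insert_subset c.he hHE) (by
            intro g hg
            rcases mem_insert.1 hg with rfl | hg
            · intro v hv
              simp only [mem_insert, mem_singleton] at hv ⊢
              rcases hv with rfl | rfl
              · exact Or.inr hx
              · exact Or.inl rfl
            · exact hsub g hg) (by rw [card_insert_of_notMem hYy]; omega)
        rw [card_insert_of_notMem hYy, card_insert_of_notMem (fun h => c.heF (hHF h))] at h1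
        exact h1
      have hkey : 2 * (H.card : ℤ) + 2 ≤ ∑ X ∈ 𝒱, cc F x y φ ψ X Y := by
        by_cases hne : (EE F φ ψ (φ {x, y}) Y).Nonempty
        · have h1 : ∑ X ∈ 𝒱, (2 * ((EE F φ ψ X Y).card : ℤ) + if X = φ {x, y} then 2 else 0) ≤
              ∑ X ∈ 𝒱, cc F x y φ ψ X Y := by
            refine sum_le_sum fun X _ => ?_
            by_cases h : X = φ {x, y}
            · subst h
              unfold cc
              rw [if_pos hx, if_pos rfl, if_pos rfl, if_pos hne]; linarith
            · rw [if_neg h]; linarith [hge X]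
          rw [sum_add_distrib, ← mul_sum, ← hsum, sum_ite_eq' , if_pos (by
            rw [h𝒱]; exact mem_image_of_mem _ (mem_insert_self _ _))] at h1
          exact h1
        · have hfX : φ f ≠ φ {x, y} := by
            intro h; exact hne ⟨f, mem_EE.2 ⟨hHF hf, h, (mem_filter.1 hf).2⟩⟩
          have hfX' : φ f' ≠ φ {x, y} := by
            intro h; exact hne ⟨f', mem_EE.2 ⟨hHF hf', h, (mem_filter.1 hf').2⟩⟩
          have hff : φ f ≠ φ f' := by
            intro h
            apply hfX
            symm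
            apply c.φ2 f (mem_insert_of_mem (hHF hf)) _ (mem_insert_self _ _)
            intro v hv
            simp only [mem_insert, mem_singleton] at hv
            rcases hv with rfl | rfl
            · exact c.φ1 f (mem_insert_of_mem (hHF hf)) hxf
            · rw [h]; exact c.φ1 f' (mem_insert_of_mem (hHF hf')) hyf'
          have h1 : ∑ X ∈ 𝒱, ((2 * ((EE F φ ψ X Y).card : ℤ) + if X = φ f then 1 else 0) +
              if X = φ f' then 1 else 0) ≤ ∑ X ∈ 𝒱, cc F x y φ ψ X Y := by
            refine sum_le_sum fun X _ => ?_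
            by_cases h : X = φ f
            · subst h
              rw [if_pos rfl, if_neg hff]
              unfold cc
              rw [if_pos hx, if_neg hfX, if_pos ⟨f, mem_EE.2 ⟨hHF hf, rfl, (mem_filter.1 hf).2⟩,
                Or.inl hxf⟩]
              linarith
            · by_cases h' : X = φ f'
              · subst h'
                rw [if_pos rfl, if_neg h]
                unfold cc
                rw [if_pos hx, if_neg hfX', if_pos ⟨f', mem_EE.2 ⟨hHF hf', rfl,
                  (mem_filter.1 hf').2⟩, Or.inr hyf'⟩]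
                linarith
              · rw [if_neg h, if_neg h']; linarith [hge X]
          rw [sum_add_distrib, sum_add_distrib, ← mul_sum, ← hsum, sum_ite_eq', sum_ite_eq',
            if_pos (by rw [h𝒱]; exact mem_image_of_mem _ (mem_insert_of_mem (hHF hf))),
            if_pos (by rw [h𝒱]; exact mem_image_of_mem _ (mem_insert_of_mem (hHF hf')))] at h1
          linarith
      have hb' : (H.card : ℤ) + 1 + 6 ≤ 3 * (Y.card + 1) := by exact_mod_cast hb
      linarith
    · have hkey : 2 * (H.card : ℤ) ≤ ∑ X ∈ 𝒱, cc F x y φ ψ X Y := by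
        rw [hsum, mul_sum]
        exact sum_le_sum fun X _ => hge X
      have hb : (H.card : ℤ) + 2 ≤ 3 * (Y.card - 1) := by
        have hZ : ∃ Z : Finset V, Z.card = Y.card ∧ ∀ f ∈ H, f ⊆ Z := by
          rw [not_and_or] at hfull
          rcases hfull with h | h
          · push Not at h
            refine ⟨insert y (Y.erase x), ?_, ?_⟩
            · rw [card_insert_of_notMem (fun hh => hYy (mem_of_mem_erase hh)), card_erase_of_mem hx]
              omega
            · intro f hf v hv
              have h1 := hsub f hf hv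
              rw [mem_insert] at h1 ⊢
              rcases h1 with h1 | h1
              · exact Or.inl h1
              · right
                rw [mem_erase]
                exact ⟨fun hh => h f hf (hh ▸ hv), h1⟩
          · push Not at h
            refine ⟨Y, rfl, ?_⟩
            intro f hf v hv
            have h1 := hsub f hf hv
            rw [mem_insert] at h1
            rcases h1 with h1 | h1
            · exact absurd (h1 ▸ hv) (h f hf)
            · exact h1
        obtain ⟨Z, hZc, hZ⟩ := hZ
        by_cases h3 : 3 ≤ Y.card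
        · have := c.big hHE hZ (by omega)
          rw [hZc] at this
          have : (H.card : ℤ) + 6 ≤ 3 * Y.card := by exact_mod_cast this
          linarith
        · have := c.small hHE hZ (by omega)
          have h4 : Y.card = 2 := by omega
          rw [h4]
          have : (H.card : ℤ) ≤ 1 := by exact_mod_cast this
          push_cast
          linarith
      linarith
  · obtain ⟨f0, hf0, hf0Y⟩ := mem_image.1 hY
    have hsub : ∀ f ∈ H, f ⊆ Y := by
      intro f hf v hv
      have hf' := mem_filter.1 hf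
      have h1 := c.ψ1 f hf'.1 hv
      rw [hf'.2, mem_insert] at h1
      rcases h1 with h1 | h1
      · subst h1
        exact absurd (hf'.2 ▸ c.ψ2 f hf'.1 hv) hx
      · exact h1
    have hφ : ∀ f ∈ H, φ f = φ f0 := by
      intro f hf
      apply c.φ2 f0 (mem_insert_of_mem hf0) f (mem_insert_of_mem (hHF hf))
      refine (hsub f hf).trans ?_
      rw [← hf0Y]
      exact c.φ3 f0 hf0 (by rw [hf0Y]; exact hx)
    by_cases h3 : 3 ≤ Y.card
    · have hb := c.big hHE hsub h3
      have hcc : ∑ X ∈ 𝒱, cc F x y φ ψ X Y = cc F x y φ ψ (φ f0) Y := by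
        apply sum_eq_single
        · intro X _ hX
          unfold cc
          rw [if_neg hx, if_neg]
          rintro ⟨_, g, hg⟩
          have := mem_EE.1 hg
          exact hX (by rw [← this.2.1]; exact hφ g (mem_filter.2 ⟨this.1, this.2.2⟩))
        · intro h
          exact absurd (mem_image_of_mem _ (mem_insert_of_mem hf0)) h
      have hEH : EE F φ ψ (φ f0) Y = H := by
        rw [hEEc]
        exact filter_true_of_mem hφ
      rw [hcc]
      unfold cc
      rw [if_neg hx, hEH, if_pos ⟨h3, f0, mem_filter.2 ⟨hf0, hf0Y⟩⟩]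
      have hb' : (H.card : ℤ) + 6 ≤ 3 * Y.card := by exact_mod_cast hb
      linarith
    · have hb := c.small hHE hsub (by omega)
      have hcc : ∑ X ∈ 𝒱, cc F x y φ ψ X Y = 0 := by
        apply sum_eq_zero
        intro X _
        unfold cc
        rw [if_neg hx, if_neg (fun h => h3 h.1)]
      rw [hcc]
      have h4 : Y.card = 2 := by omega
      rw [h4]
      have : (H.card : ℤ) ≤ 1 := by exact_mod_cast hb
      push_cast
      linarith

end Ctx

end Pool.Agent.X212.Tight
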