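import Pool.Agent.X212.Tight.Ineq1

set_option autoImplicit false

/-!
Comparison of the rigid components of a set of pairs and of its contraction: the estimate for one
rigid component.
-/

namespace Pool.Agent.X212.Tight

open Finset Pool.Agent.H598R2.Cnt

variable {V : Type*} [DecidableEq V]

variable {E F I2 : Finset (Finset V)} {x y : V} {φ ψ : Finset V → Finset V}

def PP (F : Finset (Finset V)) (x y : V) (φ ψ : Finset V → Finset V) (X Y : Finset V) :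
    Finset V := ((EE F φ ψ X Y).biUnion id) \ {x, y}

namespace Ctx

variable (c : Ctx E F I2 x y φ ψ)
include c

lemma eq_body {f g : Finset V} (hf : f ∈ F) (hg : g ∈ F) {v : V} (hv : v ≠ x) (h1 : x ∈ ψ f)
    (h2 : x ∈ ψ g) (h3 : v ∈ ψ f) (h4 : v ∈ ψ g) : ψ f = ψ g := by
  apply c.ψ3 f hf g hg
  have h5 : ({x, v} : Finset V) ⊆ ψ f ∩ ψ g := by
    intro w hw
    simp only [mem_insert, mem_singleton] at hw
    rcases hw with rfl | rfl
    · exact mem_inter.2 ⟨h1, h2⟩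
    · exact mem_inter.2 ⟨h3, h4⟩
  have h6 := card_le_card h5
  rwa [card_pair (Ne.symm hv)] at h6

lemma mem_PP {X Y : Finset V} {v : V} (h : v ∈ PP F x y φ ψ X Y) :
    v ≠ x ∧ v ≠ y ∧ v ∈ Y ∧ v ∈ X ∧ ∃ f ∈ F, ψ f = Y := by
  unfold PP at h
  simp only [mem_sdiff, mem_biUnion, id, mem_insert, mem_singleton, not_or] at h
  obtain ⟨⟨f, hf, hvf⟩, hx, hy⟩ := h
  obtain ⟨hfF, hfX, hfY⟩ := mem_EE.1 hf
  refine ⟨hx, hy, ?_, ?_, f, hfF, hfY⟩
  · have := c.ψ1 f hfF hvf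
    rw [mem_insert, hfY] at this
    exact this.resolve_left hy
  · rw [← hfX]; exact c.φ1 f (mem_insert_of_mem hfF) hvf

lemma sub_PP {X Y f : Finset V} (hf : f ∈ EE F φ ψ X Y) :
    f ⊆ PP F x y φ ψ X Y ∪ {x, y} := by
  intro v hv
  unfold PP
  simp only [mem_union, mem_sdiff, mem_biUnion, id, mem_insert, mem_singleton]
  by_cases h : v = x ∨ v = y
  · exact Or.inr h
  · exact Or.inl ⟨⟨f, hf, hv⟩, h⟩

lemma PP_nonempty {X Y : Finset V} (h : (EE F φ ψ X Y).Nonempty) :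
    1 ≤ (PP F x y φ ψ X Y).card := by
  by_contra hcon
  have h0 : PP F x y φ ψ X Y = ∅ := card_eq_zero.1 (by omega)
  obtain ⟨f, hf⟩ := h
  have h1 := c.sub_PP hf
  rw [h0, empty_union] at h1
  have hfF := (mem_EE.1 hf).1
  have h2 : f = {x, y} := eq_of_subset_of_card_le h1 (by
    rw [card_pair c.hxy, c.hP f (c.hFE hfF)])
  exact c.heF (h2 ▸ hfF)

lemma EE_sub {X Y : Finset V} : EE F φ ψ X Y ⊆ E := (filter_subset _ _).trans c.hFE

lemma card_split {X : Finset V} {N : Finset (Finset V)} (hN : ∀ Y ∈ N, x ∈ Y) :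
    (X.card : ℤ) = ((X \ N.biUnion (PP F x y φ ψ X)).card : ℤ) +
      ∑ Y ∈ N, ((PP F x y φ ψ X Y).card : ℤ) := by
  classical
  have h1 : N.biUnion (PP F x y φ ψ X) ⊆ X := by
    intro v hv
    obtain ⟨Y, _, hv⟩ := mem_biUnion.1 hv
    exact (c.mem_PP hv).2.2.2.1
  have h2 : (N.biUnion (PP F x y φ ψ X)).card = ∑ Y ∈ N, (PP F x y φ ψ X Y).card := by
    apply card_biUnion
    intro Y hY Y' hY' hne
    show Disjoint (PP F x y φ ψ X Y) (PP F x y φ ψ X Y')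
    rw [disjoint_left]
    intro v hv hv'
    obtain ⟨a1, _, a3, _, f, hf, hfY⟩ := c.mem_PP hv
    obtain ⟨_, _, b3, _, g, hg, hgY⟩ := c.mem_PP hv'
    apply hne
    rw [← hfY, ← hgY]
    exact c.eq_body hf hg a1 (hfY ▸ hN Y hY) (hgY ▸ hN Y' hY') (hfY ▸ a3) (hgY ▸ b3)
  have h3 := card_sdiff_add_card_eq_card h1
  rw [h2] at h3
  exact_mod_cast h3.symm

lemma sub_rest {X : Finset V} {N : Finset (Finset V)} (hN : ∀ Y ∈ N, x ∈ Y)
    (hun : ∀ Y ∈ N, ∀ v ∈ Y, v ≠ x → ∀ K : Finset V, x ∉ K → 3 ≤ K.card →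
      (EE F φ ψ X K).Nonempty → v ∉ K) {f : Finset V} (hf : f ∈ F) (hfX : φ f = X)
    (hfN : ψ f ∉ N) (hf3 : x ∈ ψ f ∨ 3 ≤ (ψ f).card) :
    f ⊆ X \ N.biUnion (PP F x y φ ψ X) := by
  intro v hv
  rw [mem_sdiff]
  refine ⟨by rw [← hfX]; exact c.φ1 f (mem_insert_of_mem hf) hv, ?_⟩
  intro hvN
  obtain ⟨Y, hY, hvY⟩ := mem_biUnion.1 hvN
  obtain ⟨a1, a2, a3, _, g, hg, hgY⟩ := c.mem_PP hvY
  have hvf : v ∈ ψ f := by
    have := c.ψ1 f hf hv
    rw [mem_insert] at this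
    exact this.resolve_left a2
  by_cases hx : x ∈ ψ f
  · apply hfN
    rw [c.eq_body hf hg a1 hx (hgY ▸ hN Y hY) hvf (hgY ▸ a3), hgY]
    exact hY
  · exact hun Y hY v a3 a1 (ψ f) hx (hf3.resolve_left hx) ⟨f, mem_EE.2 ⟨hf, hfX, rfl⟩⟩ hvf

/-- few bodies through the contracted vertex meet the other bodies -/
lemma touched {T K : Finset (Finset V)} (hT : ∀ Y ∈ T, Y ∈ F.image ψ ∧ x ∈ Y)
    (hK : ∀ Y ∈ K, Y ∈ F.image ψ ∧ x ∉ Y)
    (hTK : ∀ Y ∈ T, ∃ v ∈ Y, v ≠ x ∧ ∃ Z ∈ K, v ∈ Z) : T.card ≤ 3 * K.card := by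
  classical
  rcases T.eq_empty_or_nonempty with rfl | ⟨Y0, hY0⟩
  · simp
  have hex : ∀ Y : Finset V, ∃ v, Y ∈ T → (v ∈ Y ∧ v ≠ x ∧ ∃ Z ∈ K, v ∈ Z) := by
    intro Y
    by_cases h : Y ∈ T
    · obtain ⟨v, h1, h2, h3⟩ := hTK Y h
      exact ⟨v, fun _ => ⟨h1, h2, h3⟩⟩
    · exact ⟨x, fun h' => absurd h' h⟩
  choose w hw using hex
  have hbody : ∀ Y ∈ T ∪ K, Tight I2 Y := by
    intro Y hY
    have : Y ∈ F.image ψ := by
      rcases mem_union.1 hY with h | h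
      · exact (hT Y h).1
      · exact (hK Y h).1
    obtain ⟨f, hf, rfl⟩ := mem_image.1 this
    exact c.tψ f hf
  have hdisj : Disjoint T K := by
    rw [disjoint_left]
    intro Y h1 h2
    exact (hK Y h2).2 (hT Y h1).2
  set Z := (T ∪ K).biUnion id with hZ
  have hZc : 2 ≤ Z.card := (hbody Y0 (mem_union_left _ hY0)).1.trans
    (card_le_card (subset_biUnion_of_mem id (mem_union_left _ hY0)))
  have hsp := c.sp2 Z hZc
  have hlow : ∑ Y ∈ T ∪ K, ins I2 Y ≤ ins I2 Z := by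
    unfold ins
    rw [← card_biUnion]
    · apply card_le_card
      intro p hp
      obtain ⟨Y, hY, hp⟩ := mem_biUnion.1 hp
      rw [mem_filter] at hp ⊢
      exact ⟨hp.1, hp.2.trans (subset_biUnion_of_mem id hY)⟩
    · intro Y hY Y' hY' hne
      show Disjoint (I2.filter (· ⊆ Y)) (I2.filter (· ⊆ Y'))
      rw [disjoint_left]
      intro p hp hp'
      rw [mem_filter] at hp hp'
      apply hne
      have hI : ∀ Y ∈ T ∪ K, ∃ f ∈ F, ψ f = Y := by
        intro Y hY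
        rcases mem_union.1 hY with h | h
        · exact mem_image.1 (hT Y h).1
        · exact mem_image.1 (hK Y h).1
      obtain ⟨f, hf, hfY⟩ := hI Y hY
      obtain ⟨g, hg, hgY⟩ := hI Y' hY'
      rw [← hfY, ← hgY]
      apply c.ψ3 f hf g hg
      rw [hfY, hgY, ← c.P2 p hp.1]
      exact card_le_card (subset_inter hp.2 hp'.2)
  have hup : Z.card ≤ 1 + ∑ Y ∈ T, (Y.card - 2) + ∑ Y ∈ K, Y.card := by
    have hsub : Z ⊆ ({x} ∪ T.biUnion (fun Y => (Y.erase x).erase (w Y))) ∪ K.biUnion id := by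
      intro v hv
      obtain ⟨Y, hY, hvY⟩ := mem_biUnion.1 hv
      simp only [id] at hvY
      simp only [mem_union, mem_singleton, mem_biUnion, mem_erase, id]
      rcases mem_union.1 hY with h | h
      · by_cases h1 : v = x
        · exact Or.inl (Or.inl h1)
        · by_cases h2 : v = w Y
          · obtain ⟨_, _, A, hA, hvA⟩ := hw Y h
            exact Or.inr ⟨A, hA, h2 ▸ hvA⟩
          · exact Or.inl (Or.inr ⟨Y, h, h2, h1, hvY⟩)
      · exact Or.inr ⟨Y, h, hvY⟩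
    refine (card_le_card hsub).trans ((card_union_le _ _).trans ?_)
    refine Nat.add_le_add ((card_union_le _ _).trans ?_) card_biUnion_le
    rw [card_singleton]
    refine Nat.add_le_add_left (card_biUnion_le.trans ?_) _
    refine sum_le_sum fun Y hY => ?_
    rw [card_erase_of_mem, card_erase_of_mem (hT Y hY).2]
    · omega
    · exact mem_erase.2 ⟨(hw Y hY).2.1, (hw Y hY).1⟩
  rw [sum_union hdisj] at hlow
  have hz1 : (∑ Y ∈ T, (ins I2 Y : ℤ)) = ∑ Y ∈ T, (2 * (Y.card : ℤ)) - 3 * T.card := by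
    have : (3 : ℤ) * (T.card : ℤ) = ∑ _Y ∈ T, (3 : ℤ) := by simp [mul_comm]
    rw [eq_sub_iff_add_eq, this, ← sum_add_distrib]
    refine sum_congr rfl fun Y hY => ?_
    have := (hbody Y (mem_union_left _ hY)).2
    exact_mod_cast this
  have hz2 : (∑ Y ∈ K, (ins I2 Y : ℤ)) = ∑ Y ∈ K, (2 * (Y.card : ℤ)) - 3 * K.card := by
    have : (3 : ℤ) * (K.card : ℤ) = ∑ _Y ∈ K, (3 : ℤ) := by simp [mul_comm]
    rw [eq_sub_iff_add_eq, this, ← sum_add_distrib]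
    refine sum_congr rfl fun Y hY => ?_
    have := (hbody Y (mem_union_right _ hY)).2
    exact_mod_cast this
  have hz3 : ((∑ Y ∈ T, (Y.card - 2) : ℕ) : ℤ) = ∑ Y ∈ T, (Y.card : ℤ) - 2 * T.card := by
    have : (2 : ℤ) * (T.card : ℤ) = ∑ _Y ∈ T, (2 : ℤ) := by simp [mul_comm]
    rw [eq_sub_iff_add_eq, this]
    push_cast
    rw [← sum_add_distrib]
    refine sum_congr rfl fun Y hY => ?_
    have := (hbody Y (mem_union_left _ hY)).1
    rw [Nat.cast_sub this]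
    push_cast
    ring
  have hlow' : (∑ Y ∈ T, (ins I2 Y : ℤ)) + (∑ Y ∈ K, (ins I2 Y : ℤ)) ≤ ins I2 Z := by
    exact_mod_cast hlow
  have hup' : (Z.card : ℤ) ≤ 1 + ((∑ Y ∈ T, (Y.card - 2) : ℕ) : ℤ) + ∑ Y ∈ K, (Y.card : ℤ) := by
    exact_mod_cast hup
  have hsp' : (ins I2 Z : ℤ) + 3 ≤ 2 * Z.card := by exact_mod_cast hsp
  rw [hz1, hz2] at hlow'
  rw [hz3] at hup'
  rw [← mul_sum, ← mul_sum] at hlow'
  have : (T.card : ℤ) ≤ 3 * K.card := by linarith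
  exact_mod_cast this

end Ctx

end Pool.Agent.X212.Tight
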