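import Pool.Agent.X212.Tight.Ineq2

set_option autoImplicit false

/-!
Comparison of the rigid components of a set of pairs and of its contraction: conclusion.
-/

namespace Pool.Agent.X212.Tight

open Finset Pool.Agent.H598R2.Cnt

variable {V : Type*} [DecidableEq V]

variable {E F I2 : Finset (Finset V)} {x y : V} {φ ψ : Finset V → Finset V}

lemma card_fib (F : Finset (Finset V)) (φ ψ : Finset V → Finset V) (X : Finset V)
    (A : Finset (Finset V)) :
    ((F.filter (fun f => φ f = X ∧ ψ f ∈ A)).card : ℤ) = ∑ Y ∈ A, ((EE F φ ψ X Y).card : ℤ) := by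
  classical
  rw [card_eq_sum_card_fiberwise (f := ψ) (t := A) (fun f hf => (mem_filter.1 hf).2.2)]
  push_cast
  refine sum_congr rfl fun Y hY => ?_
  congr 2
  ext f
  simp only [EE, mem_filter]
  constructor
  · rintro ⟨⟨h1, h2, _⟩, h4⟩
    exact ⟨h1, h2, h4⟩
  · rintro ⟨h1, h2, h4⟩
    exact ⟨⟨h1, h2, h4 ▸ hY⟩, h4⟩

namespace Ctx

variable (c : Ctx E F I2 x y φ ψ)
include c

/-- the estimate for one rigid component -/
lemma I {X : Finset V} (hX : X ∈ (insert {x, y} F).image φ) :
    (if X = φ {x, y} then 3 else 0) + ∑ Y ∈ F.image ψ, cc F x y φ ψ X Y ≤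
      3 * (2 * (X.card : ℤ) - 3) := by
  classical
  obtain ⟨f0, hf0, hf0X⟩ := mem_image.1 hX
  set 𝒴 := F.image ψ with h𝒴
  set J := 𝒴.filter (fun Y => x ∈ Y ∧ (EE F φ ψ X Y).Nonempty) with hJ
  set K := 𝒴.filter (fun Y => x ∉ Y ∧ 3 ≤ Y.card ∧ (EE F φ ψ X Y).Nonempty) with hK
  have hJK : Disjoint J K := by
    rw [disjoint_left]
    intro Y h1 h2
    exact (mem_filter.1 h2).2.1 (mem_filter.1 h1).2.1
  have hsum : ∑ Y ∈ 𝒴, cc F x y φ ψ X Y = ∑ Y ∈ J, cc F x y φ ψ X Y +
      ∑ Y ∈ K, cc F x y φ ψ X Y := by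
    rw [← sum_union hJK]
    symm
    apply sum_subset (union_subset (filter_subset _ _) (filter_subset _ _))
    intro Y hY hn
    unfold cc
    by_cases hx : x ∈ Y
    · have hE : ¬ (EE F φ ψ X Y).Nonempty := fun h =>
        hn (mem_union_left _ (mem_filter.2 ⟨hY, hx, h⟩))
      rw [not_nonempty_iff_eq_empty] at hE
      rw [if_pos hx, hE]
      simp
    · rw [if_neg hx, if_neg (fun h => hn (mem_union_right _ (mem_filter.2 ⟨hY, hx, h.1, h.2⟩)))]
  have hKcc : ∑ Y ∈ K, cc F x y φ ψ X Y = 2 * ∑ Y ∈ K, ((EE F φ ψ X Y).card : ℤ) - 6 * K.card := by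
    have : (6 : ℤ) * (K.card : ℤ) = ∑ _Y ∈ K, (6 : ℤ) := by simp [mul_comm]
    rw [this, mul_sum, ← sum_sub_distrib]
    refine sum_congr rfl fun Y hY => ?_
    have h := (mem_filter.1 hY).2
    unfold cc
    rw [if_neg h.1, if_pos h.2]
  have hKu : ∀ A : Finset V, x ∉ A → 3 ≤ A.card → (EE F φ ψ X A).Nonempty → A ∈ K := by
    intro A h1 h2 h3
    refine mem_filter.2 ⟨?_, h1, h2, h3⟩
    obtain ⟨f, hf⟩ := h3
    rw [← (mem_EE.1 hf).2.2]
    exact mem_image_of_mem _ (mem_EE.1 hf).1
  let tch : Finset V → Prop := fun Y => ∃ v ∈ Y, v ≠ x ∧ ∃ A ∈ K, v ∈ A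
  have hTc : (J.filter tch).card ≤ 3 * K.card := by
    refine c.touched (fun Y hY => ?_) (fun Y hY => ?_) (fun Y hY => (mem_filter.1 hY).2)
    · have := mem_filter.1 (mem_filter.1 hY).1
      exact ⟨this.1, this.2.1⟩
    · have := mem_filter.1 hY
      exact ⟨this.1, this.2.1⟩
  have hTc' : ((J.filter tch).card : ℤ) ≤ 3 * K.card := by exact_mod_cast hTc
  have hmain : ∀ N : Finset (Finset V), N ⊆ J → (∀ Y ∈ N, ¬ tch Y) →
      (X.card : ℤ) = ((X \ N.biUnion (PP F x y φ ψ X)).card : ℤ) +
        ∑ Y ∈ N, ((PP F x y φ ψ X Y).card : ℤ) ∧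
      (∀ f ∈ F.filter (fun f => φ f = X ∧ ψ f ∈ (J \ N) ∪ K),
        f ⊆ X \ N.biUnion (PP F x y φ ψ X)) ∧
      (K.Nonempty → 3 ≤ (X \ N.biUnion (PP F x y φ ψ X)).card) := by
    intro N hNJ hNt
    have hNx : ∀ Y ∈ N, x ∈ Y := fun Y hY => (mem_filter.1 (hNJ hY)).2.1
    refine ⟨c.card_split hNx, ?_, ?_⟩
    · intro f hf
      obtain ⟨hfF, hfX, hfJ⟩ := mem_filter.1 hf
      apply c.sub_rest hNx _ hfF hfX
      · rcases mem_union.1 hfJ with h | h
        · exact (mem_sdiff.1 h).2
        · intro hh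
          exact (mem_filter.1 h).2.1 (hNx _ hh)
      · rcases mem_union.1 hfJ with h | h
        · exact Or.inl (mem_filter.1 (mem_sdiff.1 h).1).2.1
        · exact Or.inr (mem_filter.1 h).2.2.1
      · intro Y hY v hv hvx A hA1 hA2 hA3 hvA
        exact hNt Y hY ⟨v, hv, hvx, A, hKu A hA1 hA2 hA3, hvA⟩
    · rintro ⟨A, hA⟩
      have hA' := (mem_filter.1 hA).2
      refine hA'.2.1.trans (card_le_card ?_)
      intro v hv
      obtain ⟨f, hf⟩ := hA'.2.2
      obtain ⟨hfF, hfX, hfA⟩ := mem_EE.1 hf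
      rw [mem_sdiff]
      constructor
      · rw [← hfX]
        exact c.φ3 f hfF (by rw [hfA]; exact hA'.1) (by rw [hfA]; exact hv)
      · intro hvN
        obtain ⟨Y, hY, hvY⟩ := mem_biUnion.1 hvN
        obtain ⟨a1, a2, a3, _, _⟩ := c.mem_PP hvY
        exact hNt Y hY ⟨v, a3, a1, A, hA, hv⟩
  by_cases hXe : X = φ {x, y}
  · rw [if_pos hXe, hsum, hKcc]
    set N := J.filter (fun Y => ¬ tch Y) with hN
    obtain ⟨m1, m2, m3⟩ := hmain N (filter_subset _ _) (fun Y hY => (mem_filter.1 hY).2)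
    have hJN : J \ N = J.filter tch := by
      ext Y
      constructor
      · intro h
        have h1 := mem_sdiff.1 h
        exact mem_filter.2 ⟨h1.1, by_contra fun ht => h1.2 (mem_filter.2 ⟨h1.1, ht⟩)⟩
      · intro h
        have h1 := mem_filter.1 h
        exact mem_sdiff.2 ⟨h1.1, fun h2 => (mem_filter.1 h2).2 h1.2⟩
    have hJcc : ∑ Y ∈ J, cc F x y φ ψ X Y = 2 * ∑ Y ∈ J, ((EE F φ ψ X Y).card : ℤ) + 2 * J.card := by
      have : (2 : ℤ) * (J.card : ℤ) = ∑ _Y ∈ J, (2 : ℤ) := by simp [mul_comm]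
      rw [this, mul_sum, ← sum_add_distrib]
      refine sum_congr rfl fun Y hY => ?_
      have h := (mem_filter.1 hY).2
      unfold cc
      rw [if_pos h.1, if_pos hXe, if_pos h.2]
      ring
    have hJs : ∑ Y ∈ J, ((EE F φ ψ X Y).card : ℤ) = ∑ Y ∈ J.filter tch, ((EE F φ ψ X Y).card : ℤ) +
        ∑ Y ∈ N, ((EE F φ ψ X Y).card : ℤ) := (sum_filter_add_sum_filter_not J tch _).symm
    have hJc : (J.card : ℤ) = (J.filter tch).card + N.card := by
      have := card_filter_add_card_filter_not (s := J) tch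
      exact_mod_cast this.symm
    have hx : x ∈ X := by
      rw [hXe]; exact c.φ1 _ (mem_insert_self _ _) (by simp)
    have hy : y ∈ X := by
      rw [hXe]; exact c.φ1 _ (mem_insert_self _ _) (by simp)
    have hNP : ∑ Y ∈ N, ((EE F φ ψ X Y).card : ℤ) + N.card ≤
        3 * ∑ Y ∈ N, ((PP F x y φ ψ X Y).card : ℤ) := by
      have : (N.card : ℤ) = ∑ _Y ∈ N, (1 : ℤ) := by simp
      rw [this, mul_sum, ← sum_add_distrib]
      refine sum_le_sum fun Y hY => ?_
      have hYne := (mem_filter.1 (mem_filter.1 hY).1).2.2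
      have h1 := c.PP_nonempty hYne
      have hdj : Disjoint (PP F x y φ ψ X Y) {x, y} := sdiff_disjoint
      have hZc : (PP F x y φ ψ X Y ∪ {x, y}).card = (PP F x y φ ψ X Y).card + 2 := by
        rw [card_union_of_disjoint hdj, card_pair c.hxy]
      have h2 := c.big (S := insert {x, y} (EE F φ ψ X Y)) (Z := PP F x y φ ψ X Y ∪ {x, y})
        (insert_subset c.he c.EE_sub) (by
          intro f hf
          rcases mem_insert.1 hf with rfl | hf
          · exact subset_union_right
          · exact c.sub_PP hf) (by omega)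
      rw [card_insert_of_notMem (fun h => c.heF (mem_EE.1 h).1), hZc] at h2
      have : ((EE F φ ψ X Y).card : ℤ) + 1 + 6 ≤ 3 * ((PP F x y φ ψ X Y).card + 2) := by
        exact_mod_cast h2
      linarith
    have hxy' : ({x, y} : Finset V) ⊆ X \ N.biUnion (PP F x y φ ψ X) := by
      intro v hv
      simp only [mem_insert, mem_singleton] at hv
      rw [mem_sdiff]
      refine ⟨by rcases hv with rfl | rfl <;> assumption, ?_⟩
      intro h
      obtain ⟨Y, _, hvY⟩ := mem_biUnion.1 h
      obtain ⟨a1, a2, _⟩ := c.mem_PP hvY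
      rcases hv with h | h
      · exact a1 h
      · exact a2 h
    have hX'2 : 2 ≤ (X \ N.biUnion (PP F x y φ ψ X)).card := by
      have := card_le_card hxy'
      rwa [card_pair c.hxy] at this
    by_cases h3 : 3 ≤ (X \ N.biUnion (PP F x y φ ψ X)).card
    · have h4 := c.big (S := insert {x, y} (F.filter (fun f => φ f = X ∧ ψ f ∈ (J \ N) ∪ K)))
        (Z := X \ N.biUnion (PP F x y φ ψ X))
        (insert_subset c.he ((filter_subset _ _).trans c.hFE)) (by
          intro f hf
          rcases mem_insert.1 hf with rfl | hf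
          · exact hxy'
          · exact m2 f hf) h3
      rw [card_insert_of_notMem (fun h => c.heF (mem_filter.1 h).1)] at h4
      have h5 := card_fib F φ ψ X ((J \ N) ∪ K)
      rw [sum_union (hJK.mono_left sdiff_subset), hJN] at h5
      have h6 : ((F.filter (fun f => φ f = X ∧ ψ f ∈ (J \ N) ∪ K)).card : ℤ) + 1 + 6 ≤
        3 * ((X \ N.biUnion (PP F x y φ ψ X)).card : ℤ) := by exact_mod_cast h4
      rw [hJN] at h6
      rw [h5] at h6
      rw [hJcc, hJs, hJc]
      linarith
    · have hK0 : K = ∅ := by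
        rw [← not_nonempty_iff_eq_empty]
        exact fun h => h3 (m3 h)
      have hT0 : J.filter tch = ∅ := by
        have hKc0 : K.card = 0 := card_eq_zero.2 hK0
        exact card_eq_zero.1 (by omega)
      have h4 : ((X \ N.biUnion (PP F x y φ ψ X)).card : ℤ) = 2 := by
        have : (X \ N.biUnion (PP F x y φ ψ X)).card = 2 := by omega
        exact_mod_cast this
      rw [hJcc, hJs, hJc, hT0, hK0]
      simp only [sum_empty, card_empty]
      push_cast
      linarith
  · rw [if_neg hXe, hsum, hKcc]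
    let t : Finset V → Prop := fun Y => ∃ f ∈ EE F φ ψ X Y, x ∈ f ∨ y ∈ f
    set N := J.filter (fun Y => t Y ∧ ¬ tch Y) with hN
    obtain ⟨m1, m2, m3⟩ := hmain N (filter_subset _ _) (fun Y hY => (mem_filter.1 hY).2.2)
    have hJN : J \ N = J.filter (fun Y => ¬ (t Y ∧ ¬ tch Y)) := by
      ext Y
      constructor
      · intro h
        have h1 := mem_sdiff.1 h
        exact mem_filter.2 ⟨h1.1, fun ht => h1.2 (mem_filter.2 ⟨h1.1, ht⟩)⟩
      · intro h
        have h1 := mem_filter.1 h
        exact mem_sdiff.2 ⟨h1.1, fun h2 => h1.2 (mem_filter.1 h2).2⟩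
    have hJcc : ∑ Y ∈ J, cc F x y φ ψ X Y ≤ 2 * ∑ Y ∈ J, ((EE F φ ψ X Y).card : ℤ) +
        (N.card + (J.filter tch).card) := by
      have h1 : ∑ Y ∈ J, cc F x y φ ψ X Y = 2 * ∑ Y ∈ J, ((EE F φ ψ X Y).card : ℤ) +
          (J.filter t).card := by
        have : ((J.filter t).card : ℤ) = ∑ Y ∈ J, (if t Y then (1 : ℤ) else 0) := by
          rw [card_filter]; push_cast; rfl
        rw [this, mul_sum, ← sum_add_distrib]
        refine sum_congr rfl fun Y hY => ?_
        have h := (mem_filter.1 hY).2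
        unfold cc
        rw [if_pos h.1, if_neg hXe]
      rw [h1]
      have h2 : (J.filter t).card ≤ N.card + (J.filter tch).card := by
        refine le_trans (card_le_card ?_) (card_union_le _ _)
        intro Y hY
        have a := (mem_filter.1 hY).1
        have b := (mem_filter.1 hY).2
        by_cases h : tch Y
        · exact mem_union_right _ (mem_filter.2 ⟨a, h⟩)
        · exact mem_union_left _ (mem_filter.2 ⟨a, b, h⟩)
      have h3 : ((J.filter t).card : ℤ) ≤ N.card + (J.filter tch).card := by exact_mod_cast h2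
      linarith
    have hJs : ∑ Y ∈ J, ((EE F φ ψ X Y).card : ℤ) = ∑ Y ∈ N, ((EE F φ ψ X Y).card : ℤ) +
        ∑ Y ∈ J \ N, ((EE F φ ψ X Y).card : ℤ) := by
      rw [hJN]
      exact (sum_filter_add_sum_filter_not J (fun Y => t Y ∧ ¬ tch Y) _).symm
    have hfibc := card_fib F φ ψ X ((J \ N) ∪ K)
    rw [sum_union (hJK.mono_left sdiff_subset)] at hfibc
    have hSE : F.filter (fun f => φ f = X ∧ ψ f ∈ (J \ N) ∪ K) ⊆ E :=
      (filter_subset _ _).trans c.hFE
    have hnot : ¬ (x ∈ X ∧ y ∈ X) := by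
      rintro ⟨h1, h2⟩
      apply hXe
      rw [← hf0X]
      symm
      apply c.φ2 f0 hf0 _ (mem_insert_self _ _)
      intro v hv
      simp only [mem_insert, mem_singleton] at hv
      rw [hf0X]
      rcases hv with rfl | rfl <;> assumption
    have hNz : N.Nonempty → ∃ z, z ∈ X ∧ (z = x ∨ z = y) := by
      rintro ⟨Y, hY⟩
      obtain ⟨f, hf, hz⟩ := (mem_filter.1 hY).2.1
      have hfX : f ⊆ X := by
        rw [← (mem_EE.1 hf).2.1]
        exact c.φ1 f (mem_insert_of_mem (mem_EE.1 hf).1)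
      rcases hz with h | h
      · exact ⟨x, hfX h, Or.inl rfl⟩
      · exact ⟨y, hfX h, Or.inr rfl⟩
    have hNP : ∑ Y ∈ N, ((EE F φ ψ X Y).card : ℤ) + 2 * N.card ≤
        3 * ∑ Y ∈ N, ((PP F x y φ ψ X Y).card : ℤ) := by
      have : 2 * (N.card : ℤ) = ∑ _Y ∈ N, (2 : ℤ) := by simp [mul_comm]
      rw [this, mul_sum, ← sum_add_distrib]
      refine sum_le_sum fun Y hY => ?_
      have hYne := (mem_filter.1 (mem_filter.1 hY).1).2.2
      have h1 := c.PP_nonempty hYne
      obtain ⟨z, hzX, hz⟩ := hNz ⟨Y, hY⟩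
      have hzP : z ∉ PP F x y φ ψ X Y := by
        intro h
        obtain ⟨a1, a2, _⟩ := c.mem_PP h
        rcases hz with h | h
        · exact a1 h
        · exact a2 h
      have hZc : (insert z (PP F x y φ ψ X Y)).card = (PP F x y φ ψ X Y).card + 1 :=
        card_insert_of_notMem hzP
      have hZs : ∀ f ∈ EE F φ ψ X Y, f ⊆ insert z (PP F x y φ ψ X Y) := by
        intro f hf v hv
        have hvX : v ∈ X := by
          rw [← (mem_EE.1 hf).2.1]
          exact c.φ1 f (mem_insert_of_mem (mem_EE.1 hf).1) hv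
        have h5 := c.sub_PP hf hv
        simp only [mem_union, mem_insert, mem_singleton] at h5 ⊢
        rcases h5 with h5 | h5
        · exact Or.inr h5
        · left
          rcases hz with rfl | rfl
          · rcases h5 with rfl | rfl
            · rfl
            · exact absurd ⟨hzX, hvX⟩ hnot
          · rcases h5 with rfl | rfl
            · exact absurd ⟨hvX, hzX⟩ hnot
            · rfl
      by_cases h3 : 2 ≤ (PP F x y φ ψ X Y).card
      · have h2 := c.big c.EE_sub hZs (by omega)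
        rw [hZc] at h2
        have : ((EE F φ ψ X Y).card : ℤ) + 6 ≤ 3 * ((PP F x y φ ψ X Y).card + 1) := by
          exact_mod_cast h2
        linarith
      · have h2 := c.small c.EE_sub hZs (by omega)
        have h4 : (PP F x y φ ψ X Y).card = 1 := by omega
        rw [h4]
        have : ((EE F φ ψ X Y).card : ℤ) ≤ 1 := by exact_mod_cast h2
        push_cast
        linarith
    by_cases h3 : 3 ≤ (X \ N.biUnion (PP F x y φ ψ X)).card
    · have h4 := c.big hSE m2 h3
      have h6 : ((F.filter (fun f => φ f = X ∧ ψ f ∈ (J \ N) ∪ K)).card : ℤ) + 6 ≤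
        3 * ((X \ N.biUnion (PP F x y φ ψ X)).card : ℤ) := by exact_mod_cast h4
      rw [hfibc] at h6
      rw [hJs] at hJcc
      linarith
    · have hK0 : K = ∅ := by
        rw [← not_nonempty_iff_eq_empty]
        exact fun h => h3 (m3 h)
      have hT0 : J.filter tch = ∅ := by
        have hKc0 : K.card = 0 := card_eq_zero.2 hK0
        exact card_eq_zero.1 (by omega)
      rcases N.eq_empty_or_nonempty with hN0 | hNne
      · have h4 := c.small hSE m2 (by omega)
        have h6 : ((F.filter (fun f => φ f = X ∧ ψ f ∈ (J \ N) ∪ K)).card : ℤ) ≤ 1 := by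
          exact_mod_cast h4
        rw [hfibc] at h6
        have hX2 : 2 ≤ X.card := by
          have h7 : f0.card = 2 := by
            rcases mem_insert.1 hf0 with rfl | h
            · exact card_pair c.hxy
            · exact c.hP f0 (c.hFE h)
          rw [← h7, ← hf0X]
          exact card_le_card (c.φ1 f0 hf0)
        have hX2' : (2 : ℤ) ≤ X.card := by exact_mod_cast hX2
        rw [hJs] at hJcc
        rw [hN0, hK0] at h6
        rw [hN0, hT0] at hJcc
        rw [hK0]
        simp only [sum_empty, card_empty] at h6 hJcc ⊢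
        push_cast at h6 hJcc ⊢
        linarith
      · obtain ⟨z, hzX, hz⟩ := hNz hNne
        have hzX' : z ∈ X \ N.biUnion (PP F x y φ ψ X) := by
          rw [mem_sdiff]
          refine ⟨hzX, fun h => ?_⟩
          obtain ⟨Y, _, hvY⟩ := mem_biUnion.1 h
          obtain ⟨a1, a2, _⟩ := c.mem_PP hvY
          rcases hz with h | h
          · exact a1 h
          · exact a2 h
        have hR0 : J \ N = ∅ := by
          rw [eq_empty_iff_forall_notMem]
          intro Y hY
          have hYJ := (mem_sdiff.1 hY).1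
          have hYt : ¬ t Y := by
            intro ht
            refine (mem_sdiff.1 hY).2 (mem_filter.2 ⟨hYJ, ht, fun htc => ?_⟩)
            have : Y ∈ J.filter tch := mem_filter.2 ⟨hYJ, htc⟩
            rw [hT0] at this
            simp at this
          obtain ⟨f, hf⟩ := (mem_filter.1 hYJ).2.2
          have hf' := mem_EE.1 hf
          have h5 := m2 f (mem_filter.2 ⟨hf'.1, hf'.2.1, by rw [hf'.2.2]; exact mem_union_left _ hY⟩)
          have hzf : z ∉ f := by
            intro h
            apply hYt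
            rcases hz with rfl | rfl
            · exact ⟨f, hf, Or.inl h⟩
            · exact ⟨f, hf, Or.inr h⟩
          have h6 : f ⊆ (X \ N.biUnion (PP F x y φ ψ X)).erase z := by
            intro v hv
            exact mem_erase.2 ⟨fun h => hzf (h ▸ hv), h5 hv⟩
          have h7 := card_le_card h6
          rw [c.hP f (c.hFE hf'.1), card_erase_of_mem hzX'] at h7
          omega
        have hX'1 : (1 : ℤ) ≤ ((X \ N.biUnion (PP F x y φ ψ X)).card : ℤ) := by
          have : 1 ≤ (X \ N.biUnion (PP F x y φ ψ X)).card := card_pos.2 ⟨z, hzX'⟩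
          exact_mod_cast this
        have hN1 : (1 : ℤ) ≤ (N.card : ℤ) := by
          have : 1 ≤ N.card := card_pos.2 hNne
          exact_mod_cast this
        rw [hJs] at hJcc
        rw [hR0, hT0] at hJcc
        rw [hK0]
        simp only [sum_empty, card_empty] at hJcc ⊢
        push_cast at hJcc ⊢
        linarith

/-- the comparison -/
theorem ineq : 2 * (F.card : ℤ) + 1 ≤
    ∑ X ∈ (insert {x, y} F).image φ, (2 * (X.card : ℤ) - 3) +
      2 * ∑ Y ∈ F.image ψ, (2 * (Y.card : ℤ) - 3) := by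
  classical
  have h1 : ∑ X ∈ (insert {x, y} F).image φ, ((if X = φ {x, y} then 3 else 0) +
      ∑ Y ∈ F.image ψ, cc F x y φ ψ X Y) ≤
      ∑ X ∈ (insert {x, y} F).image φ, 3 * (2 * (X.card : ℤ) - 3) :=
    sum_le_sum fun X hX => c.I hX
  have h2 : ∑ Y ∈ F.image ψ, 3 * (2 * ((F.filter (fun f => ψ f = Y)).card : ℤ) - 4 * Y.card + 6) ≤
      ∑ Y ∈ F.image ψ, ∑ X ∈ (insert {x, y} F).image φ, cc F x y φ ψ X Y :=
    sum_le_sum fun Y hY => c.II hY
  rw [sum_comm] at h2
  rw [sum_add_distrib, sum_ite_eq', if_pos (mem_image_of_mem _ (mem_insert_self _ _))] at h1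
  have h3 : (F.card : ℤ) = ∑ Y ∈ F.image ψ, ((F.filter (fun f => ψ f = Y)).card : ℤ) := by
    have := card_eq_sum_card_image ψ F
    exact_mod_cast this
  have h4 : ∑ Y ∈ F.image ψ, 3 * (2 * ((F.filter (fun f => ψ f = Y)).card : ℤ) - 4 * Y.card + 6) =
      6 * (F.card : ℤ) - 3 * (2 * ∑ Y ∈ F.image ψ, (2 * (Y.card : ℤ) - 3)) := by
    rw [h3, mul_sum, mul_sum, mul_sum, ← sum_sub_distrib]
    exact sum_congr rfl fun Y _ => by ring
  rw [h4] at h2
  rw [← mul_sum] at h1
  linarith

end Ctx

end Pool.Agent.X212.Tight
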