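import Pool.Agent.X212.Tight.Ineq3
import Pool.Agent.H632R2.Laman

set_option autoImplicit false

/-!
The rank inequality needed for the matroid union.
-/

namespace Pool.Agent.X212.Tight

open Finset Pool.Agent.H598R2.Cnt Pool.Agent.H632R2.Laman

section Comb

variable {V : Type*} [DecidableEq V]

/-- the map which sends `y` to `x` and fixes the other vertices -/
def ct (x y : V) (v : V) : V := if v = y then x else v

lemma ct_self (x y : V) : ct x y y = x := by simp [ct]

lemma ct_of_ne {x y v : V} (h : v ≠ y) : ct x y v = v := by simp [ct, h]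

lemma exists_phi {Γ I : Finset (Finset V)} (h : Maxl Γ I) (hΓ : Pairs Γ) :
    ∃ φ : Finset V → Finset V, ∀ p ∈ Γ, Tight I (φ p) ∧ p ⊆ φ p ∧
      ∀ Y, Tight I Y → p ⊆ Y → Y ⊆ φ p := by
  classical
  have hex : ∀ p : Finset V, ∃ X, p ∈ Γ → (Tight I X ∧ p ⊆ X ∧ ∀ Y, Tight I Y → p ⊆ Y → Y ⊆ X) := by
    intro p
    by_cases hp : p ∈ Γ
    · obtain ⟨X, hX⟩ := exists_largest h.2.1 (I.biUnion id)
        (fun q hq => Finset.subset_biUnion_of_mem id hq) (hΓ p hp) (h.exists_tight hΓ hp)
      exact ⟨X, fun _ => hX⟩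
    · exact ⟨∅, fun hh => absurd hh hp⟩
  choose φ hφ using hex
  exact ⟨φ, hφ⟩

lemma phi_eq {Γ I : Finset (Finset V)} {φ : Finset V → Finset V}
    (hφ : ∀ p ∈ Γ, Tight I (φ p) ∧ p ⊆ φ p ∧ ∀ Y, Tight I Y → p ⊆ Y → Y ⊆ φ p)
    {p q : Finset V} (hp : p ∈ Γ) (hq : q ∈ Γ) (h : q ⊆ φ p) : φ q = φ p := by
  have h1 := hφ p hp
  have h2 := hφ q hq
  have h3 : φ p ⊆ φ q := h2.2.2 _ h1.1 h
  exact subset_antisymm (h1.2.2 _ h2.1 (h1.2.1.trans h3)) h3

lemma sum_tight {Γ I : Finset (Finset V)} (h : Maxl Γ I)
    {φ : Finset V → Finset V}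
    (hφ : ∀ p ∈ Γ, Tight I (φ p) ∧ p ⊆ φ p ∧ ∀ Y, Tight I Y → p ⊆ Y → Y ⊆ φ p) :
    (I.card : ℤ) = ∑ X ∈ Γ.image φ, (2 * (X.card : ℤ) - 3) := by
  classical
  have h1 : I.card = ∑ X ∈ Γ.image φ, ins I X := by
    rw [Finset.card_eq_sum_card_fiberwise (f := φ) (t := Γ.image φ)
      (fun p hp => Finset.mem_image_of_mem _ (h.1 hp))]
    refine Finset.sum_congr rfl fun X hX => ?_
    unfold ins
    congr 1
    ext p
    simp only [Finset.mem_filter]
    constructor
    · rintro ⟨h1, rfl⟩
      exact ⟨h1, (hφ p (h.1 h1)).2.1⟩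
    · rintro ⟨h1, h2⟩
      obtain ⟨q, hq, rfl⟩ := Finset.mem_image.1 hX
      exact ⟨h1, phi_eq hφ hq (h.1 h1) h2⟩
  rw [h1]
  push_cast
  refine Finset.sum_congr rfl fun X hX => ?_
  obtain ⟨q, hq, rfl⟩ := Finset.mem_image.1 hX
  have := (hφ q hq).1.2
  have h3 : (ins I (φ q) : ℤ) + 3 = 2 * (φ q).card := by exact_mod_cast this
  linarith

lemma ct_image_card {x y : V} (hxy : x ≠ y) {f : Finset V} (hf : f.card = 2) (hne : f ≠ {x, y}) :
    (f.image (ct x y)).card = 2 := by
  rw [← hf]
  apply card_image_of_injOn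
  intro a ha b hb hab
  have ha' : a ∈ f := ha
  have hb' : b ∈ f := hb
  by_contra hcon
  have hfab : f = {a, b} := by
    symm
    apply eq_of_subset_of_card_le
    · intro v hv
      simp only [mem_insert, mem_singleton] at hv
      rcases hv with rfl | rfl <;> assumption
    · rw [card_pair hcon, hf]
  unfold ct at hab
  split_ifs at hab with h1 h2 h2
  · exact hcon (h1.trans h2.symm)
  · apply hne
    rw [hfab, h1, ← hab, pair_comm]
  · apply hne
    rw [hfab, h2, hab]
  · exact hcon hab

/-- the combinatorial form of the rank inequality -/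
theorem comb {E F : Finset (Finset V)} {x y : V} (hxy : x ≠ y) (hP : Pairs E)
    (hE : ∀ X : Finset V, 3 ≤ X.card → ins E X + 6 ≤ 3 * X.card) (he : {x, y} ∈ E)
    (hFE : F ⊆ E) (heF : {x, y} ∉ F) :
    ∃ I1 I2 : Finset (Finset V), Maxl (insert {x, y} F) I1 ∧
      Maxl (F.image (fun f => f.image (ct x y))) I2 ∧
      2 * F.card + 1 ≤ I1.card + 2 * I2.card := by
  classical
  set pe : Finset V → Finset V := fun f => f.image (ct x y) with hpe
  have hΓ2 : Pairs (F.image pe) := by
    intro p hp
    obtain ⟨f, hf, rfl⟩ := mem_image.1 hp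
    exact ct_image_card hxy (hP f (hFE hf)) (fun h => heF (h ▸ hf))
  have hΓ1 : Pairs (insert {x, y} F) := by
    intro p hp
    rcases mem_insert.1 hp with rfl | hp
    · exact card_pair hxy
    · exact hP p (hFE hp)
  have hsp0 : Sp (∅ : Finset (Finset V)) := by
    intro X hX
    simp only [ins, filter_empty, card_empty]
    omega
  obtain ⟨I2, _, hI2⟩ := exists_maxl (Γ := F.image pe) (J := ∅) (empty_subset _) hsp0
  have hlift : ∀ p : Finset V, ∃ f, p ∈ I2 → (f ∈ F ∧ pe f = p) := by
    intro p
    by_cases h : p ∈ I2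
    · obtain ⟨f, hf, hfp⟩ := mem_image.1 (hI2.1 h)
      exact ⟨f, fun _ => ⟨hf, hfp⟩⟩
    · exact ⟨∅, fun h' => absurd h' h⟩
  choose g hg using hlift
  have hynot : ∀ p ∈ I2, y ∉ p := by
    intro p hp hy
    rw [← (hg p hp).2] at hy
    obtain ⟨v, _, hv⟩ := mem_image.1 hy
    unfold ct at hv
    split_ifs at hv with h
    · exact hxy hv
    · exact h hv
  set B2 := I2.image g with hB2
  have hB2F : B2 ⊆ F := by
    intro f hf
    obtain ⟨p, hp, rfl⟩ := mem_image.1 hf
    exact (hg p hp).1
  have hB2c : ∀ X : Finset V, (B2.filter (· ⊆ X)).card ≤ ins I2 (X.image (ct x y)) := by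
    intro X
    unfold ins
    have : B2.filter (· ⊆ X) ⊆ (I2.filter (· ⊆ X.image (ct x y))).image g := by
      intro f hf
      obtain ⟨h1, h2⟩ := mem_filter.1 hf
      obtain ⟨p, hp, rfl⟩ := mem_image.1 h1
      refine mem_image_of_mem _ (mem_filter.2 ⟨hp, ?_⟩)
      rw [← (hg p hp).2]
      exact image_subset_image h2
    exact (card_le_card this).trans card_image_le
  have hspB : Sp (insert {x, y} B2) := by
    intro X hX
    have hb := hB2c X
    unfold ins
    rw [filter_insert]
    by_cases hxyX : ({x, y} : Finset V) ⊆ X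
    · rw [if_pos hxyX]
      have hx : x ∈ X := hxyX (by simp)
      have hy : y ∈ X := hxyX (by simp)
      have hci := card_insert_le ({x, y} : Finset V) (B2.filter (· ⊆ X))
      have him : X.image (ct x y) = X.erase y := by
        ext v
        simp only [mem_image, mem_erase]
        constructor
        · rintro ⟨w, hw, rfl⟩
          by_cases h : w = y
          · subst h; rw [ct_self]; exact ⟨hxy, hx⟩
          · rw [ct_of_ne h]; exact ⟨h, hw⟩
        · rintro ⟨h1, h2⟩
          exact ⟨v, h2, ct_of_ne h1⟩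
      rw [him] at hb
      have hce : (X.erase y).card = X.card - 1 := card_erase_of_mem hy
      by_cases h3 : 2 ≤ (X.erase y).card
      · have := hI2.2.1 (X.erase y) h3
        omega
      · have hX2 : X.card = 2 := by omega
        have hXe : X = {x, y} := by
          symm
          apply eq_of_subset_of_card_le hxyX
          rw [card_pair hxy, hX2]
        have hB0 : B2.filter (· ⊆ X) = ∅ := by
          rw [eq_empty_iff_forall_notMem]
          intro f hf
          obtain ⟨h1, h2⟩ := mem_filter.1 hf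
          have h4 : f = X := eq_of_subset_of_card_le h2 (by
            rw [hX2, hP f (hFE (hB2F h1))])
          exact heF (by rw [← hXe, ← h4]; exact hB2F h1)
        rw [hB0] at hci ⊢
        simp only [card_empty] at hci
        omega
    · rw [if_neg hxyX]
      have hci : (X.image (ct x y)).card = X.card := by
        apply card_image_of_injOn
        intro a ha b hb hab
        have ha' : a ∈ X := ha
        have hb' : b ∈ X := hb
        have hn : ¬ (x ∈ X ∧ y ∈ X) := by
          rintro ⟨h1, h2⟩
          apply hxyX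
          intro v hv
          simp only [mem_insert, mem_singleton] at hv
          rcases hv with rfl | rfl <;> assumption
        unfold ct at hab
        split_ifs at hab with h1 h2 h2
        · exact h1.trans h2.symm
        · exact absurd ⟨hab ▸ hb', h1 ▸ ha'⟩ hn
        · exact absurd ⟨hab ▸ ha', h2 ▸ hb'⟩ hn
        · exact hab
      have := hI2.2.1 (X.image (ct x y)) (by omega)
      omega
  obtain ⟨I1, hBI, hI1⟩ := exists_maxl (Γ := insert {x, y} F) (insert_subset_insert _ hB2F) hspB
  refine ⟨I1, I2, hI1, hI2, ?_⟩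
  obtain ⟨φ, hφ⟩ := exists_phi hI1 hΓ1
  obtain ⟨ψ0, hψ0⟩ := exists_phi hI2 hΓ2
  have hmem : ∀ f ∈ F, pe f ∈ F.image pe := fun f hf => mem_image_of_mem _ hf
  have hsubpe : ∀ f : Finset V, f ⊆ insert y (pe f) := by
    intro f v hv
    by_cases h : v = y
    · exact mem_insert.2 (Or.inl h)
    · exact mem_insert.2 (Or.inr (mem_image.2 ⟨v, hv, ct_of_ne h⟩))
  have c : Ctx E F I2 x y φ (fun f => ψ0 (pe f)) := by
    refine ⟨hxy, hP, hE, he, hFE, heF, hI2.2.1, fun p hp => hΓ2 p (hI2.1 hp), ?_, ?_, ?_, ?_, ?_,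
      fun f hf => (hφ f hf).2.1, fun f hf g' hg' h => phi_eq hφ hf hg' h, ?_⟩
    · intro f hf
      exact (hψ0 _ (hmem f hf)).1
    · intro f hf
      exact (hsubpe f).trans (insert_subset_insert _ (hψ0 _ (hmem f hf)).2.1)
    · intro f hf hy
      exact (hψ0 _ (hmem f hf)).2.1 (mem_image.2 ⟨y, hy, ct_self x y⟩)
    · intro f hf f' hf' h
      have h1 := hψ0 _ (hmem f hf)
      have h2 := hψ0 _ (hmem f' hf')
      have h3 := h1.1.union hI2.2.1 h2.1 h
      have h4 : ψ0 (pe f) ∪ ψ0 (pe f') ⊆ ψ0 (pe f) := h1.2.2 _ h3 (h1.2.1.trans subset_union_left)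
      have h5 : ψ0 (pe f) ∪ ψ0 (pe f') ⊆ ψ0 (pe f') :=
        h2.2.2 _ h3 (h2.2.1.trans subset_union_right)
      exact subset_antisymm (subset_union_left.trans h5) (subset_union_right.trans h4)
    · intro f hf hy
      have h1 := (hψ0 _ (hmem f hf)).1
      set Y := ψ0 (pe f) with hY
      have h2 : ins I2 Y = ins I2 (Y.erase y) := by
        unfold ins
        congr 1
        apply filter_congr
        intro p hp
        constructor
        · intro h v hv
          exact mem_erase.2 ⟨fun h' => hynot p hp (h' ▸ hv), h hv⟩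
        · intro h
          exact h.trans (erase_subset _ _)
      have h3 : (Y.erase y).card = Y.card - 1 := card_erase_of_mem hy
      by_cases h4 : 2 ≤ (Y.erase y).card
      · have := hI2.2.1 _ h4
        have := h1.2
        omega
      · have h5 : ins I2 (Y.erase y) = 0 := by
          unfold ins
          rw [card_eq_zero, eq_empty_iff_forall_notMem]
          intro p hp
          obtain ⟨a, b⟩ := mem_filter.1 hp
          have := card_le_card b
          rw [hΓ2 p (hI2.1 a)] at this
          exact h4 this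
        have := h1.1
        have := h1.2
        omega
    · intro f hf hx
      have h1 := (hψ0 _ (hmem f hf)).1
      set Y := ψ0 (pe f) with hY
      have hfY : f ⊆ Y := by
        intro v hv
        have h2 := (hsubpe f).trans (insert_subset_insert _ (hψ0 _ (hmem f hf)).2.1) hv
        rcases mem_insert.1 h2 with h3 | h3
        · subst h3
          exact absurd ((hψ0 _ (hmem f hf)).2.1 (mem_image.2 ⟨v, hv, ct_self x v⟩)) hx
        · exact h3
      apply (hφ f (mem_insert_of_mem hf)).2.2 Y _ hfY
      refine ⟨h1.1, ?_⟩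
      have h2 : ins I2 Y ≤ ins I1 Y := by
        unfold ins
        apply card_le_card
        intro p hp
        obtain ⟨a, b⟩ := mem_filter.1 hp
        refine mem_filter.2 ⟨hBI (mem_insert_of_mem ?_), b⟩
        have h3 := hg p a
        have h4 : y ∉ g p := by
          intro h
          apply hx
          apply b
          rw [← h3.2]
          exact mem_image.2 ⟨y, h, ct_self x y⟩
        have h5 : pe (g p) = g p := by
          show (g p).image (ct x y) = g p
          conv_rhs => rw [← image_id (s := g p)]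
          apply image_congr
          intro v hv
          exact ct_of_ne (fun h => h4 (h ▸ hv))
        rw [← h3.2, h5]
        exact mem_image_of_mem _ a
      have h3 := hI1.2.1 Y h1.1
      have h4 := h1.2
      omega
  have h1 := c.ineq
  have h2 := sum_tight hI1 hφ
  have h3 := sum_tight hI2 hψ0
  rw [image_image] at h3
  have h4 : (2 * (F.card : ℤ) + 1) ≤ I1.card + 2 * I2.card := by
    rw [h2, h3]
    exact h1
  exact_mod_cast h4

end Comb

section Lin

variable {V : Type} [Fintype V] [DecidableEq V]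

lemma finrank_maxl {z : V → Fin 2 → ℝ} (hz : Gen z) {Γ I : Finset (Finset V)} (h : Maxl Γ I)
    (hΓ : Pairs Γ) :
    Module.finrank ℝ (Submodule.span ℝ (rv z '' (Γ : Set (Finset V)))) = I.card := by
  classical
  have hPI : Pairs I := fun p hp => hΓ p (h.1 hp)
  have h1 := indep_gen_of_sp hz hPI h.2.1
  have hspan : Submodule.span ℝ (rv z '' (Γ : Set (Finset V))) =
      Submodule.span ℝ (rv z '' (I : Set (Finset V))) := by
    apply le_antisymm
    · rw [Submodule.span_le]
      rintro _ ⟨p, hp, rfl⟩
      by_cases hpI : p ∈ I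
      · exact Submodule.subset_span ⟨p, hpI, rfl⟩
      · by_contra hcon
        have hpΓ : p ∈ Γ := hp
        apply h.2.2 p hpΓ hpI
        rw [← indep_iff_sp hz (by
          intro q hq
          rcases mem_insert.1 hq with rfl | hq
          · exact hΓ q hpΓ
          · exact hPI q hq), coe_insert]
        exact LinearIndepOn.insert h1 hcon
    · exact Submodule.span_mono (Set.image_mono (by exact_mod_cast h.1))
  rw [hspan]
  have h3 := finrank_span_set_eq_card (R := ℝ) (s := rv z '' (I : Set (Finset V))) h1.id_image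
  rw [h3, Set.toFinset_image, Finset.toFinset_coe, Finset.card_image_of_injOn h1.injOn]

end Lin

end Pool.Agent.X212.Tight
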