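import Pool.Agent.X212.Tight.Key
import Pool.Agent.H825R2.EW.PackM

set_option autoImplicit false
set_option linter.unusedSectionVars false

/-!
The matroid union step: the edges different from `{x, y}`, taken twice, are divided into a base
of the rigidity matroid contracted at the edge and two bases of the rigidity matroid of the
contracted graph.
-/

namespace Pool.Agent.X212.Tight

open Finset Pool.Agent.H598R2.Cnt Pool.Agent.H632R2.Laman
open Pool.Agent.Helper879.ECD (sp)

section U

variable {V : Type} [Fintype V] [DecidableEq V]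

/-- the rank of a set of pairs in the generic rigidity matroid -/
noncomputable def rk (z : V → Fin 2 → ℝ) (Γ : Finset (Finset V)) : ℕ :=
  Module.finrank ℝ (Submodule.span ℝ (rv z '' (Γ : Set (Finset V))))

lemma rk_le_card (z : V → Fin 2 → ℝ) (Γ : Finset (Finset V)) : rk z Γ ≤ Γ.card := by
  classical
  unfold rk
  have h := finrank_span_finset_le_card (R := ℝ) (Γ.image (rv z))
  rw [coe_image] at h
  exact h.trans card_image_le

lemma rk_insert_le (z : V → Fin 2 → ℝ) (e : Finset V) (F : Finset (Finset V))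
    (W : Submodule ℝ (V → Fin 2 → ℝ)) (h : Submodule.span ℝ (rv z '' (F : Set (Finset V))) ≤ W) :
    rk z (insert e F) ≤ Module.finrank ℝ W + 1 := by
  classical
  have h1 : Submodule.span ℝ (rv z '' ((insert e F : Finset (Finset V)) : Set (Finset V))) ≤
      W ⊔ Submodule.span ℝ (({rv z e} : Finset (V → Fin 2 → ℝ)) : Set (V → Fin 2 → ℝ)) := by
    rw [Submodule.span_le]
    rintro _ ⟨p, hp, rfl⟩
    have hp' : p ∈ insert e F := hp
    rcases mem_insert.1 hp' with rfl | hp'
    · exact Submodule.mem_sup_right (Submodule.subset_span (by simp))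
    · exact Submodule.mem_sup_left (h (Submodule.subset_span ⟨p, hp', rfl⟩))
  have h2 := Submodule.finrank_mono h1
  have h3 := Submodule.finrank_add_le_finrank_add_finrank W
    (Submodule.span ℝ (({rv z e} : Finset (V → Fin 2 → ℝ)) : Set (V → Fin 2 → ℝ)))
  have h4 := finrank_span_finset_le_card (R := ℝ) ({rv z e} : Finset (V → Fin 2 → ℝ))
  rw [card_singleton] at h4
  unfold Set.finrank at h4
  unfold rk
  omega

/-- a set of pairs whose rank is its cardinality is sparse -/
lemma sp_of_rk {z : V → Fin 2 → ℝ} (hz : Gen z) {Γ : Finset (Finset V)} (hΓ : Pairs Γ)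
    (h : Γ.card ≤ rk z Γ) : Sp Γ := by
  have hsp0 : Sp (∅ : Finset (Finset V)) := by
    intro X hX
    simp only [ins, filter_empty, card_empty]
    omega
  obtain ⟨I, _, hI⟩ := exists_maxl (Γ := Γ) (J := ∅) (empty_subset _) hsp0
  have h1 := finrank_maxl hz hI hΓ
  unfold rk at h
  rw [h1] at h
  have h2 : I = Γ := eq_of_subset_of_card_le hI.1 h
  rw [← h2]
  exact hI.2.1

/-- the ground type -/
abbrev Gd (A : Finset (Finset V)) : Type := Option ({f : Finset V // f ∈ A} × Bool)

/-- the three vector configurations -/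
noncomputable def cfg (z : V → Fin 2 → ℝ) (x y : V) (A : Finset (Finset V)) (i : Fin 3) :
    Gd A → (V → Fin 2 → ℝ)
  | none => if i = 0 then rv z {x, y} else 0
  | some p => if i = 0 then rv z p.1.1 else rv z (p.1.1.image (ct x y))

open Classical in
/-- the edges which have a copy in the set `R` -/
noncomputable def supp (A : Finset (Finset V)) (R : Finset (Gd A)) : Finset (Finset V) :=
  A.filter (fun f => ∃ p : {f : Finset V // f ∈ A} × Bool, some p ∈ R ∧ p.1.1 = f)

lemma mem_supp {A : Finset (Finset V)} {R : Finset (Gd A)} {f : Finset V} :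
    f ∈ supp A R ↔ ∃ p : {f : Finset V // f ∈ A} × Bool, some p ∈ R ∧ p.1.1 = f := by
  classical
  unfold supp
  rw [mem_filter]
  constructor
  · exact fun h => h.2
  · rintro ⟨p, hp, rfl⟩
    exact ⟨p.1.2, p, hp, rfl⟩

lemma supp_sub (A : Finset (Finset V)) (R : Finset (Gd A)) : supp A R ⊆ A := by
  classical
  unfold supp
  exact filter_subset _ _

lemma card_le_supp (A : Finset (Finset V)) (R : Finset (Gd A)) :
    R.card ≤ 2 * (supp A R).card + (if none ∈ R then 1 else 0) := by
  classical
  have h1 : (R.erase none).card ≤ ((supp A R) ×ˢ (univ : Finset Bool)).card := by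
    refine card_le_card_of_injOn (fun g => match g with
      | none => (∅, true)
      | some p => (p.1.1, p.2)) ?_ ?_
    · intro g hg
      have hg' : g ∈ R.erase none := hg
      obtain ⟨h1, h2⟩ := mem_erase.1 hg'
      match g, h1, h2 with
      | some p, h1, h2 =>
        show (p.1.1, p.2) ∈ ((supp A R ×ˢ (univ : Finset Bool) : Finset (Finset V × Bool)) : Set (Finset V × Bool))
        rw [mem_coe, mem_product]
        exact ⟨mem_supp.2 ⟨p, h2, rfl⟩, mem_univ _⟩
    · intro g hg g' hg' h
      have hg1 : g ∈ R.erase none := hg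
      have hg2 : g' ∈ R.erase none := hg'
      obtain ⟨h1, h2⟩ := mem_erase.1 hg1
      obtain ⟨h3, h4⟩ := mem_erase.1 hg2
      match g, h1, g', h3, h with
      | some p, _, some q, _, h =>
        have h' : ((p.1.1, p.2) : Finset V × Bool) = (q.1.1, q.2) := h
        have h5 : p.1.1 = q.1.1 := (Prod.mk.inj h').1
        have h6 : p.2 = q.2 := (Prod.mk.inj h').2
        rw [Prod.ext (Subtype.ext h5) h6]
  rw [card_product] at h1
  have h2 : (univ : Finset Bool).card = 2 := by simp
  rw [h2] at h1
  by_cases h : none ∈ R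
  · rw [if_pos h]
    have := card_erase_add_one h
    omega
  · rw [if_neg h]
    rw [erase_eq_of_notMem h] at h1
    omega

lemma card_gd (A : Finset (Finset V)) : Fintype.card (Gd A) = 2 * A.card + 1 := by
  unfold Gd
  rw [Fintype.card_option, Fintype.card_prod, Fintype.card_coe, Fintype.card_bool]
  ring

/-- lower bound for the span of the first configuration -/
lemma le_sp0 (z : V → Fin 2 → ℝ) (x y : V) (A : Finset (Finset V)) (R : Finset (Gd A)) :
    rk z (insert {x, y} (supp A R)) + (if none ∈ R then 1 else 0) ≤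
      Module.finrank ℝ (sp ℝ (cfg z x y A 0) R) + 1 := by
  classical
  have h1 : Submodule.span ℝ (rv z '' ((supp A R : Finset (Finset V)) : Set (Finset V))) ≤
      sp ℝ (cfg z x y A 0) R := by
    unfold sp
    rw [Submodule.span_le]
    rintro _ ⟨f, hf, rfl⟩
    obtain ⟨p, hp, rfl⟩ := mem_supp.1 hf
    exact Submodule.subset_span ⟨some p, hp, by simp [cfg]⟩
  by_cases h : none ∈ R
  · rw [if_pos h]
    have h2 : Submodule.span ℝ (rv z '' ((insert {x, y} (supp A R) : Finset (Finset V)) : Set (Finset V))) ≤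
        sp ℝ (cfg z x y A 0) R := by
      rw [Submodule.span_le]
      rintro _ ⟨f, hf, rfl⟩
      have hf' : f ∈ insert {x, y} (supp A R) := hf
      rcases mem_insert.1 hf' with rfl | hf'
      · exact Submodule.subset_span ⟨none, h, by simp [cfg]⟩
      · exact h1 (Submodule.subset_span ⟨f, hf', rfl⟩)
    have := Submodule.finrank_mono h2
    unfold rk
    omega
  · rw [if_neg h]
    have := rk_insert_le z {x, y} (supp A R) _ h1
    omega

lemma le_sp1 (z : V → Fin 2 → ℝ) (x y : V) (A : Finset (Finset V)) (R : Finset (Gd A))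
    (i : Fin 3) (hi : i ≠ 0) :
    rk z ((supp A R).image (fun f => f.image (ct x y))) ≤
      Module.finrank ℝ (sp ℝ (cfg z x y A i) R) := by
  classical
  unfold rk sp
  apply Submodule.finrank_mono
  rw [Submodule.span_le]
  rintro _ ⟨f, hf, rfl⟩
  obtain ⟨g, hg, rfl⟩ := mem_image.1 (mem_coe.1 hf)
  obtain ⟨p, hp, rfl⟩ := mem_supp.1 hg
  exact Submodule.subset_span ⟨some p, hp, by simp [cfg, hi]⟩

/-- upper bound for the span of the first configuration -/
lemma sp0_le (z : V → Fin 2 → ℝ) (x y : V) (A : Finset (Finset V)) (R : Finset (Gd A)) :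
    Module.finrank ℝ (sp ℝ (cfg z x y A 0) R) ≤ rk z (insert {x, y} (supp A R)) := by
  classical
  unfold rk sp
  apply Submodule.finrank_mono
  rw [Submodule.span_le]
  rintro _ ⟨g, hg, rfl⟩
  match g, hg with
  | none, hg => exact Submodule.subset_span ⟨{x, y}, by simp, by simp [cfg]⟩
  | some p, hg =>
    refine Submodule.subset_span ⟨p.1.1, ?_, by simp [cfg]⟩
    exact mem_coe.2 (mem_insert_of_mem (mem_supp.2 ⟨p, hg, rfl⟩))

lemma sp1_le (z : V → Fin 2 → ℝ) (x y : V) (A : Finset (Finset V)) (R : Finset (Gd A))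
    (i : Fin 3) (hi : i ≠ 0) :
    Module.finrank ℝ (sp ℝ (cfg z x y A i) R) ≤
      rk z ((supp A R).image (fun f => f.image (ct x y))) := by
  classical
  unfold rk sp
  apply Submodule.finrank_mono
  rw [Submodule.span_le]
  rintro _ ⟨g, hg, rfl⟩
  match g, hg with
  | none, hg =>
    have : cfg z x y A i none = 0 := by simp [cfg, hi]
    rw [this]
    exact Submodule.zero_mem _
  | some p, hg =>
    refine Submodule.subset_span ⟨p.1.1.image (ct x y), ?_, by simp [cfg, hi]⟩
    exact mem_coe.2 (mem_image_of_mem _ (mem_supp.2 ⟨p, hg, rfl⟩))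

/-- The division of the doubled edge set. -/
theorem union_main {E : Finset (Finset V)} {x y : V} (hxy : x ≠ y) (hP : Pairs E)
    (hE : ∀ X : Finset V, 3 ≤ X.card → ins E X + 6 ≤ 3 * X.card) (he : {x, y} ∈ E)
    (hc : E.card + 6 = 3 * Fintype.card V) (hV : 3 ≤ Fintype.card V) :
    ∃ A0 A1 A2 : Finset (Finset V), A0 ⊆ E.erase {x, y} ∧ A1 ⊆ E.erase {x, y} ∧
      A2 ⊆ E.erase {x, y} ∧
      (∀ f ∈ E.erase {x, y}, (f ∈ A0 ∧ f ∈ A1 ∧ f ∉ A2) ∨ (f ∈ A0 ∧ f ∉ A1 ∧ f ∈ A2) ∨
        (f ∉ A0 ∧ f ∈ A1 ∧ f ∈ A2)) ∧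
      A0.card + 4 = 2 * Fintype.card V ∧ A1.card + 5 = 2 * Fintype.card V ∧
      A2.card + 5 = 2 * Fintype.card V ∧ Sp (insert {x, y} A0) ∧
      Sp (A1.image (fun f => f.image (ct x y))) ∧ Sp (A2.image (fun f => f.image (ct x y))) ∧
      Set.InjOn (fun f : Finset V => f.image (ct x y)) (A1 : Set (Finset V)) ∧
      Set.InjOn (fun f : Finset V => f.image (ct x y)) (A2 : Set (Finset V)) := by
  classical
  obtain ⟨z, hz⟩ := exists_gen V
  set A := E.erase {x, y} with hA
  set pe : Finset V → Finset V := fun f => f.image (ct x y) with hpe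
  have hAc : A.card + 1 = E.card := card_erase_add_one he
  have hAE : A ⊆ E := erase_subset _ _
  have heA : ({x, y} : Finset V) ∉ A := notMem_erase _ _
  have pe2 : ∀ F ⊆ A, Pairs (F.image pe) := by
    intro F hF p hp
    obtain ⟨f, hf, rfl⟩ := mem_image.1 hp
    exact ct_image_card hxy (hP f (hAE (hF hf))) (fun h => heA (h ▸ hF hf))
  have pe1 : ∀ F ⊆ A, Pairs (insert {x, y} F) := by
    intro F hF p hp
    rcases mem_insert.1 hp with rfl | hp
    · exact card_pair hxy
    · exact hP p (hAE (hF hp))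
  have hynot : ∀ F : Finset (Finset V), ∀ p ∈ F.image pe, y ∉ p := by
    intro F p hp hy
    obtain ⟨f, hf, rfl⟩ := mem_image.1 hp
    obtain ⟨v, _, hv⟩ := mem_image.1 hy
    unfold ct at hv
    split_ifs at hv with h
    · exact hxy hv
    · exact h hv
  have key : ∀ F ⊆ A, 2 * F.card + 1 ≤ rk z (insert {x, y} F) + 2 * rk z (F.image pe) := by
    intro F hF
    obtain ⟨I1, I2, h1, h2, h3⟩ := comb hxy hP hE he (hF.trans hAE) (fun h => heA (hF h))
    have h4 := finrank_maxl hz h1 (pe1 F hF)
    have h5 := finrank_maxl hz h2 (pe2 F hF)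
    unfold rk
    rw [h4, h5]
    exact h3
  have hsp0 : Sp (∅ : Finset (Finset V)) := by
    intro X hX
    simp only [ins, filter_empty, card_empty]
    omega
  have up0 : ∀ F ⊆ A, rk z (insert {x, y} F) + 3 ≤ 2 * Fintype.card V := by
    intro F hF
    obtain ⟨I, _, hI⟩ := exists_maxl (Γ := insert {x, y} F) (J := ∅) (empty_subset _) hsp0
    have h1 := finrank_maxl hz hI (pe1 F hF)
    unfold rk
    rw [h1]
    have h2 := hI.2.1 univ (by rw [card_univ]; omega)
    have h3 : ins I univ = I.card := by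
      unfold ins
      rw [filter_true_of_mem (fun p _ => subset_univ p)]
    rw [h3, card_univ] at h2
    exact h2
  have up1 : ∀ F ⊆ A, rk z (F.image pe) + 5 ≤ 2 * Fintype.card V := by
    intro F hF
    obtain ⟨I, _, hI⟩ := exists_maxl (Γ := F.image pe) (J := ∅) (empty_subset _) hsp0
    have h1 := finrank_maxl hz hI (pe2 F hF)
    unfold rk
    rw [h1]
    have hce : (univ.erase y).card + 1 = Fintype.card V := by
      rw [card_erase_add_one (mem_univ y), card_univ]
    have h2 := hI.2.1 (univ.erase y) (by omega)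
    have h3 : ins I (univ.erase y) = I.card := by
      unfold ins
      rw [filter_true_of_mem]
      intro p hp v hv
      exact mem_erase.2 ⟨fun h => hynot F p (hI.1 hp) (h ▸ hv), mem_univ v⟩
    rw [h3] at h2
    omega
  have hyp : ∀ R : Finset (Gd A), ∑ i, Module.finrank ℝ (sp ℝ (cfg z x y A i) univ) ≤
      ∑ i, Module.finrank ℝ (sp ℝ (cfg z x y A i) R) + (univ \ R).card := by
    intro R
    rw [Fin.sum_univ_three, Fin.sum_univ_three]
    have a0 := sp0_le z x y A univ
    have a1 : _ ≤ rk z ((supp A univ).image pe) := sp1_le z x y A univ 1 (by decide)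
    have a2 : _ ≤ rk z ((supp A univ).image pe) := sp1_le z x y A univ 2 (by decide)
    have b0 := up0 (supp A univ) (supp_sub _ _)
    have b1 := up1 (supp A univ) (supp_sub _ _)
    have c0 := le_sp0 z x y A R
    have c1 : rk z ((supp A R).image pe) ≤ _ := le_sp1 z x y A R 1 (by decide)
    have c2 : rk z ((supp A R).image pe) ≤ _ := le_sp1 z x y A R 2 (by decide)
    have d := key (supp A R) (supp_sub _ _)
    have e1 := card_le_supp A R
    have f1 : (univ \ R).card + R.card = Fintype.card (Gd A) := by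
      rw [card_sdiff_add_card_eq_card (subset_univ R), card_univ]
    have g1 := card_gd A
    omega
  obtain ⟨I, hdis, hI⟩ := Pool.Agent.H825R2.EW.packM (F := ℝ) (x := cfg z x y A) hyp
  have c0 := le_sp0 z x y A univ
  have c1 : rk z ((supp A univ).image pe) ≤ _ := le_sp1 z x y A univ 1 (by decide)
  have c2 : rk z ((supp A univ).image pe) ≤ _ := le_sp1 z x y A univ 2 (by decide)
  have d := key (supp A univ) (supp_sub _ _)
  have e1 := card_le_supp A univ
  rw [card_univ, card_gd A] at e1
  rw [if_pos (mem_univ _)] at c0 e1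
  have a0 := sp0_le z x y A univ
  have a1 : _ ≤ rk z ((supp A univ).image pe) := sp1_le z x y A univ 1 (by decide)
  have a2 : _ ≤ rk z ((supp A univ).image pe) := sp1_le z x y A univ 2 (by decide)
  have b0 := up0 (supp A univ) (supp_sub _ _)
  have b1 := up1 (supp A univ) (supp_sub _ _)
  have r0 := sp0_le z x y A (I 0)
  have r1 : _ ≤ rk z ((supp A (I 1)).image pe) := sp1_le z x y A (I 1) 1 (by decide)
  have r2 : _ ≤ rk z ((supp A (I 2)).image pe) := sp1_le z x y A (I 2) 2 (by decide)
  rw [hI 0] at r0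
  rw [hI 1] at r1
  rw [hI 2] at r2
  have s0 := rk_le_card z (insert {x, y} (supp A (I 0)))
  have s0' := card_insert_le ({x, y} : Finset V) (supp A (I 0))
  have s1 := rk_le_card z ((supp A (I 1)).image pe)
  have s1' : ((supp A (I 1)).image pe).card ≤ _ := card_image_le
  have s2 := rk_le_card z ((supp A (I 2)).image pe)
  have s2' : ((supp A (I 2)).image pe).card ≤ _ := card_image_le
  have hcnt : ∀ f ∈ A, ((if f ∈ supp A (I 0) then 1 else 0) + (if f ∈ supp A (I 1) then 1 else 0) +
      (if f ∈ supp A (I 2) then 1 else 0) : ℕ) ≤ 2 := by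
    intro f hf
    by_contra hcon
    have h0 : f ∈ supp A (I 0) := by
      by_contra h
      rw [if_neg h] at hcon
      apply hcon
      split_ifs <;> omega
    have h1 : f ∈ supp A (I 1) := by
      by_contra h
      rw [if_neg h] at hcon
      apply hcon
      split_ifs <;> omega
    have h2 : f ∈ supp A (I 2) := by
      by_contra h
      rw [if_neg h] at hcon
      apply hcon
      split_ifs <;> omega
    obtain ⟨p0, hp0, hf0⟩ := mem_supp.1 h0
    obtain ⟨p1, hp1, hf1⟩ := mem_supp.1 h1
    obtain ⟨p2, hp2, hf2⟩ := mem_supp.1 h2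
    have hne : ∀ (i j : Fin 3) (p q : {f : Finset V // f ∈ A} × Bool), i ≠ j → some p ∈ I i →
        some q ∈ I j → p.1.1 = f → q.1.1 = f → p.2 ≠ q.2 := by
      intro i j p q hij hp hq h1 h2 h3
      have h4 : p = q := Prod.ext (Subtype.ext (h1.trans h2.symm)) h3
      subst h4
      exact disjoint_left.1 (hdis i j hij) hp hq
    have n01 := hne 0 1 p0 p1 (by decide) hp0 hp1 hf0 hf1
    have n02 := hne 0 2 p0 p2 (by decide) hp0 hp2 hf0 hf2
    have n12 := hne 1 2 p1 p2 (by decide) hp1 hp2 hf1 hf2
    generalize p0.2 = u0 at n01 n02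
    generalize p1.2 = u1 at n01 n12
    generalize p2.2 = u2 at n02 n12
    revert n01 n02 n12
    cases u0 <;> cases u1 <;> cases u2 <;> simp
  have hsum : ∑ f ∈ A, ((if f ∈ supp A (I 0) then 1 else 0) + (if f ∈ supp A (I 1) then 1 else 0) +
      (if f ∈ supp A (I 2) then 1 else 0) : ℕ) =
      (supp A (I 0)).card + (supp A (I 1)).card + (supp A (I 2)).card := by
    rw [sum_add_distrib, sum_add_distrib]
    have hh : ∀ i : Fin 3, ∑ f ∈ A, (if f ∈ supp A (I i) then 1 else 0 : ℕ) =
        (supp A (I i)).card := by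
      intro i
      rw [← card_filter]
      congr 1
      ext f
      rw [mem_filter]
      exact ⟨fun h => h.2, fun h => ⟨supp_sub _ _ h, h⟩⟩
    rw [hh 0, hh 1, hh 2]
  have hle := sum_le_sum hcnt
  rw [hsum, sum_const, smul_eq_mul] at hle
  have hSA : (supp A univ).card ≤ A.card := card_le_card (supp_sub _ _)
  have hpt : ∀ f ∈ A, ((if f ∈ supp A (I 0) then 1 else 0) + (if f ∈ supp A (I 1) then 1 else 0) +
      (if f ∈ supp A (I 2) then 1 else 0) : ℕ) = 2 := by
    apply (sum_eq_sum_iff_of_le hcnt).1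
    rw [hsum, sum_const, smul_eq_mul]
    omega
  refine ⟨supp A (I 0), supp A (I 1), supp A (I 2), supp_sub _ _, supp_sub _ _, supp_sub _ _, ?_,
    by omega, by omega, by omega, ?_, ?_, ?_, ?_, ?_⟩
  · intro f hf
    have h := hpt f hf
    by_cases h0 : f ∈ supp A (I 0) <;> by_cases h1 : f ∈ supp A (I 1) <;>
      by_cases h2 : f ∈ supp A (I 2) <;> simp [h0, h1, h2] at h ⊢
  · exact sp_of_rk hz (pe1 _ (supp_sub _ _)) (by omega)
  · exact sp_of_rk hz (pe2 _ (supp_sub _ _)) (by omega)
  · exact sp_of_rk hz (pe2 _ (supp_sub _ _)) (by omega)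
  · exact card_image_iff.1 (by omega)
  · exact card_image_iff.1 (by omega)

end U

end Pool.Agent.X212.Tight
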